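import Mathlib

set_option autoImplicit false
open Set Filter Topology OnePoint

namespace Pool.Agent.H.MP_4cc686_gt

/-- the double arrow space over the extended line: monotone maps `ℝ → Bool` -/
abbrev X : Type := {u : ℝ → Bool // Monotone u}

instance : OrderClosedTopology Bool := ⟨isClosed_discrete _⟩
instance : CompactSpace X := isCompact_iff_compactSpace.1 (isClosed_monotone.isCompact)

def D : Type := {x : ℝ // Irrational x}
instance : TopologicalSpace D := ⊥
instance : DiscreteTopology D := ⟨rfl⟩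
abbrev Y : Type := OnePoint D

noncomputable def p (x : ℝ) : X := ⟨fun t => decide (x ≤ t), fun a b h => by
  simp only [Bool.le_iff_imp, decide_eq_true_eq]; exact fun h' => h'.trans h⟩
noncomputable def m (x : ℝ) : X := ⟨fun t => decide (x < t), fun a b h => by
  simp only [Bool.le_iff_imp, decide_eq_true_eq]; exact fun h' => h'.trans_le h⟩
def o : X := ⟨fun _ => false, monotone_const⟩
instance : Nonempty X := ⟨o⟩
def i : X := ⟨fun _ => true, monotone_const⟩

lemma up (u : X) {a b : ℝ} (h : a ≤ b) (ha : u.1 a = true) : u.1 b = true :=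
  Bool.le_iff_imp.1 (u.2 h) ha

lemma cases (u : X) : u = o ∨ u = i ∨ ∃ x, u = p x ∨ u = m x := by
  by_cases h1 : ∃ a, u.1 a = true
  swap
  · exact Or.inl (Subtype.ext (funext fun a => by
      by_contra h; exact h1 ⟨a, by simpa [o] using h⟩))
  by_cases h2 : ∃ b, ¬ u.1 b = true
  swap
  · exact Or.inr (Or.inl (Subtype.ext (funext fun a => by
      by_contra h; exact h2 ⟨a, h⟩)))
  obtain ⟨b, hb⟩ := h2
  have bd : BddBelow {a | u.1 a = true} := ⟨b, fun a ha => le_of_not_ge fun h => hb (up u h ha)⟩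
  set x := sInf {a | u.1 a = true}
  have k1 : ∀ t, x < t → u.1 t = true := fun t ht => by
    obtain ⟨a, ha, h⟩ := exists_lt_of_csInf_lt h1 ht
    exact up u h.le ha
  have k2 : ∀ t, u.1 t = true → x ≤ t := fun t ht => csInf_le bd ht
  refine Or.inr (Or.inr ⟨x, ?_⟩)
  by_cases h : u.1 x = true
  · exact Or.inl (Subtype.ext (funext fun t => Bool.eq_iff_iff.2 (by
      simp only [p, decide_eq_true_eq]; exact ⟨k2 t, fun h' => up u h' h⟩)))
  · exact Or.inr (Subtype.ext (funext fun t => Bool.eq_iff_iff.2 (by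
      simp only [m, decide_eq_true_eq]
      exact ⟨fun h' => (k2 t h').lt_of_ne fun e => h (e ▸ h'), k1 t⟩)))

lemma tp (x : ℝ) : Tendsto p (𝓝[<] x) (𝓝 (p x)) := by
  rw [tendsto_subtype_rng, tendsto_pi_nhds]
  intro t
  refine tendsto_const_nhds.congr' ?_
  rcases lt_or_ge t x with h | h
  · filter_upwards [Ioo_mem_nhdsLT h] with y hy
    simp [p, not_le.2 h, not_le.2 hy.1]
  · filter_upwards [self_mem_nhdsWithin] with y (hy : y < x)
    simp [p, h, hy.le.trans h]

lemma tm (x : ℝ) : Tendsto m (𝓝[>] x) (𝓝 (m x)) := by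
  rw [tendsto_subtype_rng, tendsto_pi_nhds]
  intro t
  refine tendsto_const_nhds.congr' ?_
  rcases lt_or_ge x t with h | h
  · filter_upwards [Ioo_mem_nhdsGT h] with y hy
    simp [m, h, hy.2]
  · filter_upwards [self_mem_nhdsWithin] with y (hy : x < y)
    simp [m, not_lt.2 h, not_lt.2 (h.trans hy.le)]

lemma side (f : ℝ → X) (s : ℝ → Set ℝ) (ho : ∀ x, s x ∈ 𝓝ˢ (s x)) (hf : ∀ x, Tendsto f (𝓝[s x] x) (𝓝 (f x)))
    (hc : ∀ A : Set ℝ, {x ∈ A | 𝓝[A ∩ s x] x = ⊥}.Countable) (A : Set X) :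
    ∃ C ⊆ A, C.Countable ∧ ∀ x, f x ∈ A → f x ∈ closure C := by
  obtain ⟨C, c1, c2, c3⟩ := (TopologicalSpace.IsSeparable.of_separableSpace (f ⁻¹' A)).exists_countable_dense_subset
  refine ⟨f '' (C ∪ {x ∈ f ⁻¹' A | 𝓝[f ⁻¹' A ∩ s x] x = ⊥}), ?_, (c2.union (hc _)).image f, fun x hx => ?_⟩
  · rintro _ ⟨x, h | h, rfl⟩
    exacts [c1 h, h.1]
  by_cases h : 𝓝[f ⁻¹' A ∩ s x] x = ⊥
  · exact subset_closure ⟨x, Or.inr ⟨hx, h⟩, rfl⟩
  have h1 : x ∈ closure (s x ∩ C) := by
    have h2 : x ∈ closure (f ⁻¹' A ∩ s x) := mem_closure_iff_nhdsWithin_neBot.2 ⟨h⟩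
    refine closure_minimal (fun y hy => ?_) isClosed_closure h2
    exact (isOpen_iff_mem_nhds.2 (mem_nhdsSet_iff_forall.1 (ho x))).inter_closure ⟨hy.2, c3 hy.1⟩
  have := mem_closure_iff_nhdsWithin_neBot.1 h1
  refine mem_closure_of_tendsto (b := 𝓝[s x ∩ C] x) ((hf x).mono_left (nhdsWithin_mono _ inter_subset_left)) ?_
  filter_upwards [self_mem_nhdsWithin] with y hy using ⟨y, Or.inl hy.2, rfl⟩

theorem hsep (A : Set X) : ∃ C ⊆ A, C.Countable ∧ A ⊆ closure C := by
  obtain ⟨C, c1, c2, c3⟩ := side p Iio (fun x => isOpen_Iio.mem_nhdsSet_self) tp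
    (fun A => countable_setOfPred_isolated_left_within) A
  obtain ⟨E, e1, e2, e3⟩ := side m Ioi (fun x => isOpen_Ioi.mem_nhdsSet_self) tm
    (fun A => countable_setOfPred_isolated_right_within) A
  refine ⟨C ∪ E ∪ (A ∩ {o, i}), union_subset (union_subset c1 e1) inter_subset_left,
    (c2.union e2).union ((toFinite _).countable.mono inter_subset_right), fun u hu => ?_⟩
  rcases cases u with h | h | ⟨x, rfl | rfl⟩
  · exact subset_closure (Or.inr ⟨hu, Or.inl h⟩)
  · exact subset_closure (Or.inr ⟨hu, Or.inr h⟩)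
  · exact closure_mono (subset_union_left.trans subset_union_left) (c3 x hu)
  · exact closure_mono (subset_union_right.trans subset_union_left) (e3 x hu)

lemma jump {f : X → ℝ} (hf : Continuous f) :
    Tendsto (fun x : D => f (p x.1) - f (m x.1)) cofinite (𝓝 0) := by
  have h1 : Tendsto (fun x : D => (p x.1, m x.1)) cofinite (uniformity X) := by
    rw [uniformity_subtype, tendsto_comap_iff, Pi.uniformity, tendsto_iInf]
    intro t
    rw [tendsto_comap_iff]
    refine tendsto_def.2 fun V hV => ?_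
    filter_upwards [(Subtype.val_injective.tendsto_cofinite (f := fun x : D => x.1)).eventually
      (eventually_cofinite_ne t)] with x hx
    have : (p x.1).1 t = (m x.1).1 t := by simp [p, m, le_iff_lt_or_eq, hx]
    show ((p x.1).1 t, (m x.1).1 t) ∈ V
    rw [this]; exact refl_mem_uniformity hV
  have h2 := Tendsto.comp (CompactSpace.uniformContinuous_of_continuous hf) h1
  rw [tendsto_uniformity_iff_dist_tendsto_zero] at h2
  exact tendsto_zero_iff_norm_tendsto_zero.2 h2

abbrev Cp (Z : Type) [TopologicalSpace Z] : Type := continuousAddSubgroup Z ℝ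

noncomputable def φ : Cp X →+ Cp Y where
  toFun f := ⟨fun y => f.1 o + y.elim 0 fun x => f.1 (p x.1) - f.1 (m x.1),
    (continuous_iff_from_discrete _).2 (tendsto_const_nhds.add (jump f.2))⟩
  map_zero' := Subtype.ext (funext fun y => by induction y using OnePoint.rec <;> simp)
  map_add' f g := Subtype.ext (funext fun y => by
    induction y using OnePoint.rec <;> simp
    ring)

lemma φ1 (f : Cp X) : (φ f).1 ∞ = f.1 o := add_zero _
lemma φ2 (f : Cp X) (x : D) : (φ f).1 x = f.1 o + (f.1 (p x.1) - f.1 (m x.1)) := rfl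

lemma φ_cont : Continuous φ := by
  have h : ∀ u, Continuous fun f : Cp X => f.1 u := fun u => (continuous_apply u).comp continuous_subtype_val
  refine Continuous.subtype_mk (continuous_pi fun y => ?_) _
  induction y using OnePoint.rec with
  | infty => exact (h o).add continuous_const
  | coe x => exact (h o).add ((h _).sub (h _))

noncomputable def co (t : ℝ) : C(X, ℝ) := ⟨fun u => if u.1 t = true then 1 else 0,
  (continuous_of_discreteTopology (f := fun b : Bool => if b = true then (1 : ℝ) else 0)).comp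
    ((continuous_apply t).comp continuous_subtype_val)⟩

lemma co_j (t x : ℝ) : co t (p x) - co t (m x) = if x = t then 1 else 0 := by
  rcases lt_trichotomy x t with h | h | h
  · simp [co, p, m, h, h.le, h.ne]
  · simp [co, p, m, h]
  · simp [co, p, m, not_lt.2 h.le, not_le.2 h, h.ne']

open Classical in
lemma fin (F : Finset D) (a : D → ℝ) (C : ℝ) (h0 : 0 ≤ C) (h : ∀ x ∈ F, |a x| ≤ C) :
    ∃ s : C(X, ℝ), ‖s‖ ≤ C ∧ s o = 0 ∧ ∀ x : D, s (p x.1) - s (m x.1) = if x ∈ F then a x else 0 := by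
  classical
  have h1 : ∀ x : D, ∃ q : ℚ, (q : ℝ) < x.1 ∧ ∀ y ∈ F, y.1 < x.1 → y.1 < q := fun x => by
    have : ∀ᶠ r in 𝓝[<] x.1, ∀ y ∈ F, y.1 < x.1 → y.1 < r := (eventually_all_finset F).2 fun y _ => by
      by_cases h : y.1 < x.1
      · filter_upwards [Ioo_mem_nhdsLT h] with r hr _ using hr.1
      · simp [h]
    obtain ⟨r, r1, r2⟩ := (this.and self_mem_nhdsWithin).exists
    obtain ⟨q, q1, q2⟩ := exists_rat_btwn (show r < x.1 from r2)
    exact ⟨q, q2, fun y hy h => (r1 y hy h).trans q1⟩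
  choose q q1 q2 using h1
  refine ⟨∑ x ∈ F, a x • (co x.1 - co (q x)), (ContinuousMap.norm_le _ h0).2 fun u => ?_, by simp [co, o],
    fun y => ?_⟩
  · simp only [ContinuousMap.sum_apply, ContinuousMap.smul_apply, ContinuousMap.sub_apply, smul_eq_mul]
    have k : ∀ x, co x.1 u - co (q x) u = if u.1 x.1 = true ∧ ¬ u.1 (q x) = true then 1 else 0 := fun x => by
      have := up u (q1 x).le
      by_cases h1 : u.1 x.1 = true <;> by_cases h2 : u.1 (q x) = true <;> simp_all [co]
    simp only [k]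
    by_cases h2 : ∃ x ∈ F, u.1 x.1 = true ∧ ¬ u.1 (q x) = true
    · obtain ⟨x, hx, h2⟩ := h2
      rw [Finset.sum_eq_single_of_mem x hx fun y hy hne => ?_]
      · simpa [h2] using h x hx
      · rw [if_neg, mul_zero]
        intro h3
        rcases lt_or_gt_of_ne (Subtype.val_injective.ne hne) with h4 | h4
        · exact h2.2 (up u (q2 x y hy h4).le h3.1)
        · exact h3.2 (up u (q2 y x hx h4).le h2.1)
    · rw [Finset.sum_eq_zero fun x hx => by rw [if_neg fun h3 => h2 ⟨x, hx, h3⟩, mul_zero]]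
      simpa using h0
  · simp only [ContinuousMap.sum_apply, ContinuousMap.smul_apply, ContinuousMap.sub_apply, smul_eq_mul]
    rw [← Finset.sum_sub_distrib, ← Finset.sum_ite_eq F y a]
    refine Finset.sum_congr rfl fun x _ => ?_
    have e1 := co_j x.1 y.1
    have e2 := co_j (q x) y.1
    rw [if_neg (y.2.ne_rat _)] at e2
    have e3 : (if y = x then a x else 0) = a x * if y.1 = x.1 then 1 else 0 := by
      by_cases h : y = x
      · simp [h]
      · simp [h, Subtype.val_injective.ne h]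
    rw [e3, ← e1]; linear_combination (-a x) * e2

lemma φ_surj : Function.Surjective φ := by
  classical
  intro g
  set j : D → ℝ := fun x => g.1 x - g.1 ∞ with hj
  have h1 : Tendsto j cofinite (𝓝 0) := by
    simpa using ((continuous_iff_from_discrete _).1 g.2).sub_const (g.1 ∞)
  have h2 : ∀ k : ℕ, {x | ¬ dist (j x) 0 < (1 / 2 : ℝ) ^ k}.Finite := fun k =>
    Metric.tendsto_nhds.1 h1 _ (by positivity)
  set G : ℕ → Finset D := fun k => (h2 k).toFinset
  have hG : ∀ k x, x ∈ G k ↔ (1 / 2 : ℝ) ^ k ≤ |j x| := fun k x => by simp [G]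
  obtain ⟨s0, -, a2, a3⟩ := fin (G 0) j (∑ x ∈ G 0, |j x|) (by positivity) fun x hx =>
    Finset.single_le_sum (f := fun x => |j x|) (fun _ _ => abs_nonneg _) hx
  choose s s1 s2 s3 using fun k => fin (G (k + 1) \ G k) j ((1 / 2) ^ k) (by positivity) fun x hx =>
    (not_le.1 fun h => (Finset.mem_sdiff.1 hx).2 ((hG k x).2 h)).le
  have hs : Summable s := Summable.of_norm_bounded summable_geometric_two s1
  have ev : ∀ u, HasSum (fun k => s k u) ((∑' k, s k) u) := fun u =>
    (ContinuousMap.evalCLM ℝ u).hasSum hs.hasSum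
  have e0 : (∑' k, s k) o = 0 := (ev o).unique (by simpa [s2] using hasSum_zero)
  refine ⟨⟨fun u => g.1 ∞ + s0 u + (∑' k, s k) u, by show Continuous _; fun_prop⟩,
    Subtype.ext (funext fun y => ?_)⟩
  induction y using OnePoint.rec with
  | infty => rw [φ1]; simp [a2, e0]
  | coe x =>
    have h3 := ((ev (p x.1)).sub (ev (m x.1))).tendsto_sum_nat.const_add (s0 (p x.1) - s0 (m x.1))
    have h4 : ∀ n, s0 (p x.1) - s0 (m x.1) + ∑ k ∈ Finset.range n, (s k (p x.1) - s k (m x.1)) =
        if x ∈ G n then j x else 0 := fun n => by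
      induction n with
      | zero => simp [a3]
      | succ n ih =>
        rw [Finset.sum_range_succ, ← add_assoc, ih, s3]
        have : x ∈ G n → x ∈ G (n + 1) := fun h => (hG _ _).2 (le_trans
          (pow_le_pow_of_le_one (by norm_num) (by norm_num) n.le_succ) ((hG _ _).1 h))
        by_cases b1 : x ∈ G n <;> by_cases b2 : x ∈ G (n + 1) <;> simp_all
    have h5 : Tendsto (fun n => if x ∈ G n then j x else 0) atTop (𝓝 (j x)) := by
      refine tendsto_const_nhds.congr' ?_
      by_cases h : j x = 0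
      · simp [h]
      · filter_upwards [(tendsto_pow_atTop_nhds_zero_of_lt_one (r := (1 / 2 : ℝ)) (by norm_num)
          (by norm_num)).eventually (ge_mem_nhds (abs_pos.2 h))] with n hn
        rw [if_pos ((hG _ _).2 hn)]
    simp only [h4] at h3
    have h6 := tendsto_nhds_unique h3 h5
    rw [φ2]
    simp only [a2, e0, hj] at h6 ⊢
    linarith

def π (u : X) : ℚ → Bool := fun q => u.1 q

lemma π_eq {u v : X} (h : π u = π v) : u = v ∨ ∃ x : D, u = p x.1 ∧ v = m x.1 ∨ u = m x.1 ∧ v = p x.1 := by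
  have k : ∀ u v : X, π u = π v → ∀ t, u.1 t = true → ¬ v.1 t = true →
      Irrational t ∧ u = p t ∧ v = m t := fun u v h t h1 h2 => by
    have a : ∀ s, t < s → v.1 s = true := fun s hs => by
      obtain ⟨q, q1, q2⟩ := exists_rat_btwn hs
      exact up v q2.le ((congrFun h q).symm.trans (up u q1.le h1))
    have b : ∀ s, s < t → ¬ u.1 s = true := fun s hs h3 => by
      obtain ⟨q, q1, q2⟩ := exists_rat_btwn hs
      exact h2 (up v q2.le ((congrFun h q).symm.trans (up u q1.le h3)))
    refine ⟨fun ⟨q, hq⟩ => h2 (hq ▸ (congrFun h q).symm.trans (hq ▸ h1 : u.1 q = true)),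
      Subtype.ext (funext fun s => Bool.eq_iff_iff.2 ?_), Subtype.ext (funext fun s => Bool.eq_iff_iff.2 ?_)⟩
    · simp only [p, decide_eq_true_eq]
      exact ⟨fun h3 => le_of_not_gt fun h4 => b s h4 h3, fun h3 => up u h3 h1⟩
    · simp only [m, decide_eq_true_eq]
      exact ⟨fun h3 => lt_of_not_ge fun h4 => h2 (up v h4 h3), a s⟩
  by_cases h1 : u = v
  · exact Or.inl h1
  obtain ⟨t, ht⟩ := Function.ne_iff.1 (Subtype.val_injective.ne h1)
  by_cases h2 : u.1 t = true
  · obtain ⟨a, b, c⟩ := k u v h t h2 fun h3 => ht (h2.trans h3.symm)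
    exact Or.inr ⟨⟨t, a⟩, Or.inl ⟨b, c⟩⟩
  · obtain ⟨a, b, c⟩ := k v u h.symm t (by simpa [h2] using ht) h2
    exact Or.inr ⟨⟨t, a⟩, Or.inr ⟨c, b⟩⟩

lemma π_pm (x : D) : π (p x.1) = π (m x.1) := funext fun q => by
  simp [π, p, m, le_iff_lt_or_eq, x.2.ne_rat q]

lemma adj (g : Cp Y) (T : Set X) (hT : T.Finite) : ∃ h : Cp X, φ h = g ∧ ∀ u ∈ T, h.1 u = g.1 ∞ ∨
    ∃ x : D, (u = p x.1 ∨ u = m x.1) ∧ |h.1 u| ≤ 2 * |g.1 ∞| + |g.1 x| := by
  classical
  obtain ⟨h0, rfl⟩ := φ_surj g
  set S := π '' insert o T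
  have hS : S.Finite := (hT.insert o).image π
  have : Finite S := hS
  let r : (ℚ → Bool) → X := fun z => if z = π o then o else Function.invFun π z
  have hr : ∀ u, π (r (π u)) = π u := fun u => by
    by_cases h : π u = π o
    · simp [r, h]
    · simp only [r, if_neg h]; exact Function.invFun_eq ⟨u, rfl⟩
  obtain ⟨k, hk⟩ := ContinuousMap.exists_restrict_eq hS.isClosed
    (⟨fun z => h0.1 o - h0.1 (r z), continuous_of_discreteTopology⟩ : C(S, ℝ))
  have hk' : ∀ u ∈ insert o T, k (π u) = h0.1 o - h0.1 (r (π u)) := fun u hu =>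
    congrFun (congrArg DFunLike.coe hk) ⟨π u, u, hu, rfl⟩
  have k0 : k (π o) = 0 := by rw [hk' o (mem_insert _ _)]; simp [r]
  have πc : Continuous π := continuous_pi fun q => (continuous_apply _).comp continuous_subtype_val
  refine ⟨⟨fun u => h0.1 u + k (π u), h0.2.add (k.continuous.comp πc)⟩, Subtype.ext (funext fun y => ?_),
    fun u hu => ?_⟩
  · induction y using OnePoint.rec with
    | infty => simp [φ1, k0]
    | coe x => simp only [φ2, k0, π_pm]; ring
  · simp only [hk' u (mem_insert_of_mem _ hu), φ1, φ2]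
    rcases π_eq (hr u) with h | ⟨x, ⟨h1, h2⟩ | ⟨h1, h2⟩⟩
    · left; rw [h]; ring
    · refine Or.inr ⟨x, Or.inr h2, ?_⟩
      rw [h1]; subst h2
      have := abs_sub (2 * h0.1 o) (h0.1 o + (h0.1 (p x.1) - h0.1 (m x.1)))
      rw [abs_mul, abs_two] at this
      exact le_trans (le_of_eq (congrArg _ (by ring))) this
    · refine Or.inr ⟨x, Or.inl h2, ?_⟩
      rw [h1]; subst h2
      have := abs_nonneg (h0.1 o)
      exact le_trans (le_of_eq (congrArg _ (by ring))) (le_add_of_nonneg_left (by positivity))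

lemma pinj : Function.Injective p ∧ Function.Injective m := by
  constructor
  · intro x y h
    have h1 := congrFun (congrArg Subtype.val h) x
    have h2 := congrFun (congrArg Subtype.val h) y
    simp [p] at h1 h2; linarith
  · intro x y h
    have h1 := congrFun (congrArg Subtype.val h) x
    have h2 := congrFun (congrArg Subtype.val h) y
    simp [m] at h1 h2; linarith

lemma φ_open : IsOpenMap φ := by
  refine IsTopologicalAddGroup.isOpenMap_iff_nhds_zero.2 fun W hW => ?_
  rw [mem_map, nhds_subtype, mem_comap] at hW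
  obtain ⟨V, hV, hW⟩ := hW
  rw [nhds_pi, Filter.mem_pi] at hV
  obtain ⟨T, hT, t, ht, hV⟩ := hV
  obtain ⟨ε, ε0, hε⟩ : ∃ ε > 0, ∀ u ∈ T, ∀ a : ℝ, |a| < ε → a ∈ t u := by
    have : ∀ᶠ a : ℝ in 𝓝 0, ∀ u ∈ T, a ∈ t u := (eventually_all_finite hT).2 fun u _ => ht u
    obtain ⟨ε, ε0, h⟩ := Metric.eventually_nhds_iff.1 this
    exact ⟨ε, ε0, fun u hu a ha => h (by simpa using ha) u hu⟩
  have c : ∀ y : Y, ∀ᶠ g : Cp Y in 𝓝 0, |g.1 y| < ε / 3 := fun y =>
    (((continuous_apply y).comp continuous_subtype_val).abs.tendsto' (0 : Cp Y) 0 (by simp)).eventually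
      (gt_mem_nhds (by positivity))
  have hF : {x : D | p x.1 ∈ T ∨ m x.1 ∈ T}.Finite :=
    (hT.preimage (pinj.1.comp Subtype.val_injective).injOn).union
      (hT.preimage (pinj.2.comp Subtype.val_injective).injOn)
  filter_upwards [c ∞, (eventually_all_finite hF).2 fun x _ => c x] with g g1 g2
  obtain ⟨h, rfl, h2⟩ := adj g T hT
  refine hW (hV fun u hu => hε u hu _ ?_)
  rcases h2 u hu with h3 | ⟨x, h3, h4⟩
  · rw [h3]; linarith
  · have := g2 x (by rcases h3 with rfl | rfl; exacts [Or.inl hu, Or.inr hu])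
    linarith

lemma Dunc : ¬ (univ : Set D).Countable := fun h => by
  have h1 : {x : ℝ | Irrational x}.Countable := by
    have : Countable D := countable_univ_iff.1 h
    exact this
  refine Cardinal.not_countable_real ((h1.union (countable_range ((↑) : ℚ → ℝ))).mono fun x _ => ?_)
  exact (em _).symm

end Pool.Agent.H.MP_4cc686_gt
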